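import Pool.Agent.Helper15.Thomson.OnePoleGood

/-!
# The Coulomb minimiser among the configurations with an axis of high order is unique

Among the `n`-point configurations on the unit sphere of `ℝ³` which are invariant under a
rotation of order `k`, where `k ≥ 3` and `n < 3k`, the Coulomb energy has a minimiser, and it is
unique up to an orthogonal transformation.
-/

namespace Pool.Agent.Results.MP_0d50a4_gt.AxisUnique

open Pool.Agent.Helper15.Thomson

theorem result {n k : ℕ} (hk : 3 ≤ k) (hn : n < 3 * k)
    (hex : ∃ X, IsConfig n X ∧ HasAxis k X) :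
    ∃ X, IsMinAxis n k X ∧ ∀ Y, IsMinAxis n k Y → Eqv X Y :=
  main' hk hn hex

end Pool.Agent.Results.MP_0d50a4_gt.AxisUnique
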