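import Pool.Agent.CFC.Main

/-!
# Uniqueness of the Coulomb minimiser in every conformal class

Two finite subsets of the sphere are conformally equivalent if some bijection between them preserves
the absolute cross-ratios; these are the bijections induced by Moebius transformations of the
sphere. Every conformal class of `n`-point configurations, `n ≥ 3`, contains a configuration of
least Coulomb energy, it is unique up to an orthogonal transformation, and all equilibria and all
minimisers of the Coulomb energy in the class are congruent to it.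
-/

namespace Pool.Agent.Results.MP_0d50a4_gt.ConfUnique

open Pool.Agent.Helper15.Thomson Pool.Agent.CFC

theorem result {n : ℕ} (hn : 3 ≤ n) {X : Finset E3} (hX : IsConfig n X) :
    ∃ Y, IsConfig n Y ∧ ConfEquiv X Y ∧
      (∀ Z, IsConfig n Z → ConfEquiv X Z →
        energy Y ≤ energy Z ∧ (energy Z = energy Y → Eqv Y Z)) ∧
      (∀ Z, IsConfig n Z → ConfEquiv X Z → IsEquil Z → Eqv Y Z) ∧
      ∀ Z, IsMin n Z → ConfEquiv X Z → Eqv Y Z := by
  obtain ⟨Y, hY, hXY, hbal, hl⟩ := class_least hn hX
  refine ⟨Y, hY, hXY, fun Z hZ hXZ => ⟨(hl Z hZ hXZ).1, fun h => (hl Z hZ hXZ).2 h.le⟩,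
    fun Z hZ hXZ he => ?_, fun Z hZ hXZ => (hl Z hZ.1 hXZ).2 (hZ.2 Y hY)⟩
  obtain ⟨σ, hσ⟩ := hXZ
  obtain ⟨φ, hφ⟩ := hXY
  obtain ⟨τ, hτ, _⟩ := hσ.symm
  exact (hl Z hZ ⟨σ, hσ⟩).2 (equil_least (by omega) hZ he hY (hτ.comp hφ)).1

end Pool.Agent.Results.MP_0d50a4_gt.ConfUnique
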