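import Pool.Agent.TPL.Fin

/-!
# Uniqueness of the Coulomb minimiser with the points in two parallel planes

Among the configurations of `2 N` points on the sphere, `N >= 3`, with `N` points in each of two
parallel planes, the Coulomb energy has a minimiser, it is unique up to an orthogonal
transformation, and it has an axis of order `N`. The same holds for `2 N + 2` points if the two
poles of the planes are added.
-/

namespace Pool.Agent.Results.MP_0d50a4_gt.TwoPlanes

open Pool.Agent.Helper15.Thomson Pool.Agent.TPL

theorem result {N m : ℕ} (hN : 3 ≤ N) (hm : m = 0 ∨ m = 2) :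
    ∃ X, IsMinTwo N m X ∧ HasAxis N X ∧ ∀ Y, IsMinTwo N m Y → Eqv X Y :=
  two_unique hN hm

end Pool.Agent.Results.MP_0d50a4_gt.TwoPlanes
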